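import Pool.Agent.TH490.CN.Sep

set_option autoImplicit false

/-!
Two C*-norms on `C*(F_∞) ⊗ C*(F_∞)` give continuum many.
-/

open scoped TensorProduct Cardinal

namespace Pool.Agent.TH490.CN

open Pool.Agent.Helper965.CN

/-- `A` with `u : G → U(A)` is the full group C*-algebra of `G`. -/
structure IsFullGroupCStar (G : Type) [Group G] (A : Type) [CStarAlgebra A]
    (u : G →* unitary A) : Prop where
  dense : Dense ((Submodule.span ℂ (Set.range fun g => (u g : A)) : Submodule ℂ A) : Set A)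
  lift : ∀ (B : Type) [CStarAlgebra B] (v : G →* unitary B),
    ∃ φ : A →⋆ₐ[ℂ] B, ∀ g, φ (u g : A) = (v g : B)

section sup

variable {T : Type} [Ring T] [StarRing T] [Algebra ℂ T] {ι : Type} [Nonempty ι]

/-- the supremum of a pointwise bounded family of C*-seminorms -/
theorem iSup_semi (f : ι → T → ℝ) (hf : ∀ i, IsSemi (f i))
    (hb : ∀ x, BddAbove (Set.range fun i => f i x)) : IsSemi (fun x => ⨆ i, f i x) where
  nonneg x := Real.iSup_nonneg fun i => (hf i).nonneg x
  add_le x y := ciSup_le fun i => ((hf i).add_le x y).trans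
    (add_le_add (le_ciSup (hb x) i) (le_ciSup (hb y) i))
  smul c x := by
    rw [Real.mul_iSup_of_nonneg (norm_nonneg c)]
    exact congrArg _ (funext fun i => (hf i).smul c x)
  mul_le x y := ciSup_le fun i => ((hf i).mul_le x y).trans
    (mul_le_mul (le_ciSup (hb x) i) (le_ciSup (hb y) i) ((hf i).nonneg y)
      (Real.iSup_nonneg fun i => (hf i).nonneg x))
  norm_star x := congrArg _ (funext fun i => (hf i).norm_star x)
  cstar x := by
    have h0 : 0 ≤ ⨆ i, f i x := Real.iSup_nonneg fun i => (hf i).nonneg x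
    apply le_antisymm
    · apply ciSup_le
      intro i
      rw [(hf i).cstar]
      exact pow_le_pow_left₀ ((hf i).nonneg x) (le_ciSup (hb x) i) 2
    · have h1 : ∀ i, f i x ≤ Real.sqrt (⨆ i, f i (star x * x)) := by
        intro i
        apply Real.le_sqrt_of_sq_le
        rw [← (hf i).cstar]
        exact le_ciSup (hb (star x * x)) i
      have h2 : ⨆ i, f i x ≤ Real.sqrt (⨆ i, f i (star x * x)) := ciSup_le h1
      have h3 : 0 ≤ ⨆ i, f i (star x * x) := Real.iSup_nonneg fun i => (hf i).nonneg _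
      calc (⨆ i, f i x) ^ 2 ≤ (Real.sqrt (⨆ i, f i (star x * x))) ^ 2 :=
            pow_le_pow_left₀ h0 h2 2
        _ = _ := Real.sq_sqrt h3

end sup

variable {A B : Type} [CStarAlgebra A] [CStarAlgebra B]

/-- all C*-seminorms are bounded at every element -/
theorem bdd (x : A ⊗[ℂ] B) : ∃ C : ℝ, ∀ N : A ⊗[ℂ] B → ℝ, IsSemi N → N x ≤ C := by
  induction x using TensorProduct.induction_on with
  | zero =>
    refine ⟨0, fun N hN => ?_⟩
    have h := hN.smul 0 (0 : A ⊗[ℂ] B)
    rw [smul_zero, norm_zero, zero_mul] at h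
    exact h.le
  | tmul a b => exact ⟨_, fun N hN => tmul_le hN a b⟩
  | add x y hx hy =>
    obtain ⟨C, hC⟩ := hx
    obtain ⟨D, hD⟩ := hy
    exact ⟨C + D, fun N hN => (hN.add_le x y).trans (add_le_add (hC N hN) (hD N hN))⟩

/-- `φ ⊗ id` -/
noncomputable def tm (φ : A →⋆ₐ[ℂ] A) : A ⊗[ℂ] B →ₐ[ℂ] A ⊗[ℂ] B :=
  Algebra.TensorProduct.map φ.toAlgHom (AlgHom.id ℂ B)

theorem tm_tmul (φ : A →⋆ₐ[ℂ] A) (a : A) (b : B) : tm φ (a ⊗ₜ[ℂ] b) = φ a ⊗ₜ[ℂ] b := by
  simp [tm]

theorem tm_star (φ : A →⋆ₐ[ℂ] A) (x : A ⊗[ℂ] B) : tm φ (star x) = star (tm φ x) := by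
  induction x using TensorProduct.induction_on with
  | zero => simp
  | tmul a b =>
    rw [TensorProduct.star_tmul, tm_tmul, tm_tmul, TensorProduct.star_tmul, map_star]
  | add x y hx hy => rw [star_add, map_add, hx, hy, map_add, star_add]

theorem comp_semi {N : A ⊗[ℂ] B → ℝ} (hN : IsSemi N) (φ : A →⋆ₐ[ℂ] A) :
    IsSemi (fun x => N (tm φ x)) where
  nonneg x := hN.nonneg _
  add_le x y := by simp only [map_add]; exact hN.add_le _ _
  smul c x := by simp only [map_smul]; exact hN.smul _ _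
  mul_le x y := by simp only [map_mul]; exact hN.mul_le _ _
  norm_star x := by simp only [tm_star]; exact hN.norm_star _
  cstar x := by simp only [map_mul, tm_star]; exact hN.cstar _

/-! ### the endomorphisms -/

section endo

variable (u : FreeGroup ℕ →* unitary A)

/-- generators below `n` are kept, the generator `n + k` goes to `-1`, the others to `1` -/
noncomputable def hh (n k : ℕ) : FreeGroup ℕ →* unitary A :=
  FreeGroup.lift fun i => if i < n then u (FreeGroup.of i) else if i = n + k then -1 else 1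

theorem hh_stable (g : FreeGroup ℕ) : ∃ n₀, ∀ n ≥ n₀, ∀ k, hh u n k g = u g := by
  induction g using FreeGroup.induction_on with
  | C1 => exact ⟨0, fun n _ k => by rw [map_one, map_one]⟩
  | of i =>
    refine ⟨i + 1, fun n hn k => ?_⟩
    rw [hh, FreeGroup.lift_apply_of, if_pos (by omega)]
  | inv_of i h =>
    obtain ⟨n₀, h⟩ := h
    exact ⟨n₀, fun n hn k => by rw [map_inv, map_inv, h n hn k]⟩
  | mul x y hx hy =>
    obtain ⟨n₁, h₁⟩ := hx
    obtain ⟨n₂, h₂⟩ := hy
    exact ⟨max n₁ n₂, fun n hn k => by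
      rw [map_mul, map_mul, h₁ n (le_trans (le_max_left _ _) hn) k,
        h₂ n (le_trans (le_max_right _ _) hn) k]⟩

end endo

section main

variable {u : FreeGroup ℕ →* unitary A}

theorem stable_span {φ : ℕ → ℕ → A →⋆ₐ[ℂ] A} (hφ : ∀ n k g, φ n k (u g : A) = (hh u n k g : A))
    (a : A) (ha : a ∈ Submodule.span ℂ (Set.range fun g => (u g : A))) :
    ∃ n₀, ∀ n ≥ n₀, ∀ k, φ n k a = a := by
  induction ha using Submodule.span_induction with
  | mem x hx =>
    obtain ⟨g, rfl⟩ := hx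
    obtain ⟨n₀, h⟩ := hh_stable u g
    refine ⟨n₀, fun n hn k => ?_⟩
    simp only
    rw [hφ, h n hn k]
  | zero => exact ⟨0, fun n _ k => map_zero _⟩
  | add x y _ _ hx hy =>
    obtain ⟨n₁, h₁⟩ := hx
    obtain ⟨n₂, h₂⟩ := hy
    exact ⟨max n₁ n₂, fun n hn k => by
      rw [map_add, h₁ n (le_trans (le_max_left _ _) hn) k,
        h₂ n (le_trans (le_max_right _ _) hn) k]⟩
  | smul c x _ hx =>
    obtain ⟨n₁, h₁⟩ := hx
    exact ⟨n₁, fun n hn k => by rw [map_smul, h₁ n hn k]⟩

theorem stable_list {φ : ℕ → ℕ → A →⋆ₐ[ℂ] A} (hφ : ∀ n k g, φ n k (u g : A) = (hh u n k g : A))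
    (p : List (A × B))
    (hp : ∀ q ∈ p, q.1 ∈ Submodule.span ℂ (Set.range fun g => (u g : A))) :
    ∃ n₀, ∀ n ≥ n₀, ∀ k, tm (φ n k) (lsum p) = lsum p := by
  induction p with
  | nil => exact ⟨0, fun n _ k => by simp [lsum]⟩
  | cons q p ih =>
    obtain ⟨n₁, h₁⟩ := ih (fun r hr => hp r (List.mem_cons_of_mem _ hr))
    obtain ⟨n₂, h₂⟩ := stable_span hφ q.1 (hp q List.mem_cons_self)
    refine ⟨max n₁ n₂, fun n hn k => ?_⟩
    have e : lsum (q :: p) = q.1 ⊗ₜ[ℂ] q.2 + lsum p := by simp [lsum]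
    rw [e, map_add, tm_tmul, h₁ n (le_trans (le_max_left _ _) hn) k,
      h₂ n (le_trans (le_max_right _ _) hn) k]

theorem many (h : IsFullGroupCStar (FreeGroup ℕ) A u) {N₀ N₂ : A ⊗[ℂ] B → ℝ}
    (h0 : IsCStarNorm N₀) (h2 : IsSemi N₂) {x₀ : A ⊗[ℂ] B} (hx : N₀ x₀ < N₂ x₀) :
    𝔠 ≤ #{N : A ⊗[ℂ] B → ℝ // IsCStarNorm N} := by
  classical
  have s0 := semi h0
  choose φ hφ using fun n k => h.lift A (hh u n k)
  -- an algebraic element
  obtain ⟨p, hp, hp'⟩ := approx (A := A) (B := B) h.dense dense_univ x₀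
    ((N₂ x₀ - N₀ x₀) / 3) (by linarith)
  set x₁ := lsum p with hx₁
  have hneg : ∀ {N : A ⊗[ℂ] B → ℝ}, IsSemi N → ∀ x, N (-x) = N x := by
    intro N hN x
    have := hN.smul (-1) x
    rw [norm_neg, norm_one, one_mul, neg_one_smul] at this
    exact this
  have hlt : N₀ x₁ < N₂ x₁ := by
    have a1 := s0.add_le (-(x₀ - x₁)) x₀
    have a2 := h2.add_le (x₀ - x₁) x₁
    rw [hneg s0] at a1
    have e1 : -(x₀ - x₁) + x₀ = x₁ := by abel
    rw [e1] at a1
    rw [sub_add_cancel] at a2
    have a3 := hp' N₀ s0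
    have a4 := hp' N₂ h2
    linarith
  obtain ⟨n, hn⟩ := stable_list (B := B) hφ p (fun q hq => (hp q hq).1)
  have hst : ∀ k, tm (φ n k) x₁ = x₁ := hn n le_rfl
  -- the test elements
  set Q : ℕ → A ⊗[ℂ] B := fun k =>
    (1 / 2 : ℂ) • ((1 : A ⊗[ℂ] B) - (u (FreeGroup.of (n + k)) : A) ⊗ₜ[ℂ] (1 : B)) with hQ
  have hQN : ∀ k, N₀ (Q k) ≤ 1 := by
    intro k
    simp only [hQ]
    rw [s0.smul, sub_eq_add_neg]
    have b1 := s0.add_le 1 (-((u (FreeGroup.of (n + k)) : A) ⊗ₜ[ℂ] (1 : B)))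
    rw [hneg s0] at b1
    have b2 := one_le s0
    have b3 : N₀ ((u (FreeGroup.of (n + k)) : A) ⊗ₜ[ℂ] (1 : B)) ≤ 1 := by
      apply unitary_le s0
      rw [TensorProduct.star_tmul, Algebra.TensorProduct.tmul_mul_tmul, star_one, one_mul,
        Unitary.coe_star_mul_self]
      rfl
    have : ‖(1 / 2 : ℂ)‖ = 1 / 2 := by norm_num
    rw [this]
    linarith
  have hTQ : ∀ j k, tm (φ n j) (Q k) = if k = j then 1 else 0 := by
    intro j k
    simp only [hQ]
    rw [map_smul, map_sub, map_one, tm_tmul, hφ, hh, FreeGroup.lift_apply_of,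
      if_neg (by omega)]
    by_cases hkj : k = j
    · subst hkj
      rw [if_pos rfl, if_pos rfl]
      have : ((-1 : unitary A) : A) ⊗ₜ[ℂ] (1 : B) = -1 := by
        rw [Unitary.coe_neg, OneMemClass.coe_one, TensorProduct.neg_tmul]
        rfl
      rw [this, sub_neg_eq_add, ← two_smul ℂ, smul_smul]
      norm_num
    · rw [if_neg (by omega), if_neg hkj, OneMemClass.coe_one]
      have : (1 : A) ⊗ₜ[ℂ] (1 : B) = 1 := rfl
      rw [this, sub_self, smul_zero]
  -- the norms
  let f : Set ℕ → Option ℕ → A ⊗[ℂ] B → ℝ := fun S o =>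
    match o with
    | none => N₀
    | some k => if k ∈ S then (fun x => N₂ (tm (φ n k) x)) else N₀
  have hf : ∀ S o, IsSemi (f S o) := by
    intro S o
    cases o with
    | none => exact s0
    | some k =>
      show IsSemi (if k ∈ S then (fun x => N₂ (tm (φ n k) x)) else N₀)
      split_ifs
      · exact comp_semi h2 _
      · exact s0
  have hb : ∀ S x, BddAbove (Set.range fun o => f S o x) := by
    intro S x
    obtain ⟨C, hC⟩ := bdd x
    refine ⟨C, ?_⟩
    rintro _ ⟨o, rfl⟩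
    exact hC _ (hf S o)
  have hG : ∀ S, IsSemi (fun x => ⨆ o, f S o x) := fun S => iSup_semi (f S) (hf S) (hb S)
  have hGN : ∀ S, IsCStarNorm (fun x => ⨆ o, f S o x) := fun S =>
    { nonneg := (hG S).nonneg
      eq_zero := fun x hx0 => by
        apply h0.eq_zero
        have : N₀ x ≤ ⨆ o, f S o x := le_ciSup (hb S x) none
        exact le_antisymm (this.trans hx0.le) (h0.nonneg x)
      add_le := (hG S).add_le
      smul := (hG S).smul
      mul_le := (hG S).mul_le
      norm_star := (hG S).norm_star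
      cstar := (hG S).cstar }
  have hX0 : ∀ k, N₀ (x₁ * Q k) ≤ N₀ x₁ := fun k =>
    (h0.mul_le _ _).trans (mul_le_of_le_one_right (h0.nonneg _) (hQN k))
  have hin : ∀ S k, k ∈ S → N₂ x₁ ≤ ⨆ o, f S o (x₁ * Q k) := by
    intro S k hk
    have e : f S (some k) (x₁ * Q k) = N₂ x₁ := by
      show (if k ∈ S then (fun x => N₂ (tm (φ n k) x)) else N₀) (x₁ * Q k) = N₂ x₁
      rw [if_pos hk]
      rw [map_mul, hst, hTQ, if_pos rfl, mul_one]
    rw [← e]
    exact le_ciSup (hb S (x₁ * Q k)) (some k)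
  have hout : ∀ S k, k ∉ S → ⨆ o, f S o (x₁ * Q k) ≤ N₀ x₁ := by
    intro S k hk
    apply ciSup_le
    intro o
    cases o with
    | none => exact hX0 k
    | some j =>
      show (if j ∈ S then (fun x => N₂ (tm (φ n j) x)) else N₀) (x₁ * Q k) ≤ N₀ x₁
      split_ifs with hj
      · have hkj : k ≠ j := fun e => hk (e ▸ hj)
        simp only
        rw [map_mul, hTQ, if_neg hkj, mul_zero]
        have := h2.smul 0 (0 : A ⊗[ℂ] B)
        rw [smul_zero, norm_zero, zero_mul] at this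
        rw [this]
        exact h0.nonneg _
      · exact hX0 k
  have hinj : Function.Injective (fun S : Set ℕ =>
      (⟨fun x => ⨆ o, f S o x, hGN S⟩ : {N : A ⊗[ℂ] B → ℝ // IsCStarNorm N})) := by
    intro S S' hSS
    have hval : ∀ x, (⨆ o, f S o x) = ⨆ o, f S' o x := fun x =>
      congrFun (congrArg Subtype.val hSS) x
    ext k
    constructor
    · intro hk
      by_contra hk'
      have b1 := hin S k hk
      have b2 := hout S' k hk'
      rw [hval] at b1
      linarith
    · intro hk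
      by_contra hk'
      have b1 := hin S' k hk
      have b2 := hout S k hk'
      rw [hval] at b2
      linarith
  have := Cardinal.mk_le_of_injective hinj
  rwa [Cardinal.mk_set, Cardinal.mk_nat, Cardinal.two_power_aleph0] at this

theorem separable (h : IsFullGroupCStar (FreeGroup ℕ) A u) :
    TopologicalSpace.SeparableSpace A := by
  have hc : Countable (FreeGroup ℕ) := by infer_instance
  have h1 : TopologicalSpace.IsSeparable (Set.range fun g => (u g : A)) :=
    (Set.countable_range _).isSeparable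
  have h2 := (h1.span (R := ℂ)).closure
  rw [h.dense.closure_eq] at h2
  exact TopologicalSpace.isSeparable_univ_iff.1 h2

/-- For `A = C*(F_∞)` and every separable unital C*-algebra `B`. -/
theorem dichotomy (h : IsFullGroupCStar (FreeGroup ℕ) A u) [TopologicalSpace.SeparableSpace B] :
    #{N : A ⊗[ℂ] B → ℝ // IsCStarNorm N} ≤ 1 ∨ #{N : A ⊗[ℂ] B → ℝ // IsCStarNorm N} = 2 ^ ℵ₀ := by
  have := separable h
  by_cases hs : Subsingleton {N : A ⊗[ℂ] B → ℝ // IsCStarNorm N}
  · left
    exact Cardinal.le_one_iff_subsingleton.2 hs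
  · right
    rw [Cardinal.two_power_aleph0]
    apply le_antisymm card_le
    rw [not_subsingleton_iff_nontrivial] at hs
    obtain ⟨⟨N, hN⟩, ⟨N', hN'⟩, hne⟩ := hs
    have : ∃ x, N x ≠ N' x := by
      by_contra hcon
      push Not at hcon
      exact hne (Subtype.ext (funext hcon))
    obtain ⟨x, hx⟩ := this
    rcases lt_or_gt_of_ne hx with hlt | hlt
    · exact many h hN (semi hN') hlt
    · exact many h hN' (semi hN) hlt

end main

end Pool.Agent.TH490.CN
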