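import Pool.Agent.Helper965.CN.Defs

set_option autoImplicit false

/-!
At most continuum many C*-norms on the algebraic tensor product of two separable unital C*-algebras.
-/

open scoped TensorProduct Cardinal

namespace Pool.Agent.TH490.CN

open Pool.Agent.Helper965.CN

variable {A B : Type} [CStarAlgebra A] [CStarAlgebra B]

/-- a C*-seminorm -/
structure IsSemi {T : Type} [Ring T] [StarRing T] [Algebra ℂ T] (N : T → ℝ) : Prop where
  nonneg : ∀ x, 0 ≤ N x
  add_le : ∀ x y, N (x + y) ≤ N x + N y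
  smul : ∀ (c : ℂ) (x : T), N (c • x) = ‖c‖ * N x
  mul_le : ∀ x y, N (x * y) ≤ N x * N y
  norm_star : ∀ x, N (star x) = N x
  cstar : ∀ x, N (star x * x) = N x ^ 2

theorem semi {T : Type} [Ring T] [StarRing T] [Algebra ℂ T] {N : T → ℝ}
    (h : IsCStarNorm N) : IsSemi N :=
  ⟨h.nonneg, h.add_le, h.smul, h.mul_le, h.norm_star, h.cstar⟩

theorem one_le {T : Type} [Ring T] [StarRing T] [Algebra ℂ T] {N : T → ℝ} (hN : IsSemi N) :
    N 1 ≤ 1 := by
  have h := hN.cstar 1
  rw [star_one, mul_one] at h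
  nlinarith [hN.nonneg 1]

theorem unitary_le {T : Type} [Ring T] [StarRing T] [Algebra ℂ T] {N : T → ℝ}
    (hN : IsSemi N) (v : T) (hv : star v * v = 1) : N v ≤ 1 := by
  have h := hN.cstar v
  rw [hv] at h
  have h1 := one_le hN
  nlinarith [hN.nonneg v]

/-- A unital *-homomorphism pulls a C*-norm back to something below the norm. -/
theorem hom_le {T : Type} [Ring T] [StarRing T] [Algebra ℂ T] {N : T → ℝ}
    (hN : IsSemi N) (φ : A →ₐ[ℂ] T) (hφ : ∀ a, φ (star a) = star (φ a)) (a : A) :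
    N (φ a) ≤ ‖a‖ := by
  letI := CStarAlgebra.spectralOrder A
  haveI := CStarAlgebra.spectralOrderedRing A
  -- self-adjoint contractions
  have h1 : ∀ a : selfAdjoint A, ‖a‖ ≤ 1 → N (φ a) ≤ 1 := by
    intro a ha
    set v := selfAdjoint.unitarySelfAddISMul a ha with hv
    have e1 : (v : A) = a + Complex.I • CFC.sqrt (1 - a ^ 2 : A) := rfl
    have e0 : star (CFC.sqrt (1 - a ^ 2 : A)) = CFC.sqrt (1 - a ^ 2 : A) :=
      (CFC.sqrt_nonneg (1 - a ^ 2 : A)).isSelfAdjoint.star_eq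
    have ea : star (a : A) = a := a.2
    have e2 : star (v : A) = a - Complex.I • CFC.sqrt (1 - a ^ 2 : A) := by
      rw [e1, star_add, star_smul, e0, ea, ← starRingEnd_apply, Complex.conj_I, neg_smul]
      exact (sub_eq_add_neg _ _).symm
    have e3' : (v : A) + star (v : A) = (2 : ℂ) • (a : A) := by
      rw [e2, e1, two_smul]; abel
    have e3 : (a : A) = (1 / 2 : ℂ) • ((v : A) + star (v : A)) := by
      rw [e3', smul_smul]
      norm_num
    have e4 : star (v : A) * v = 1 := Unitary.coe_star_mul_self v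
    have e5 : (v : A) * star (v : A) = 1 := Unitary.coe_mul_star_self v
    have n1 : N (φ v) ≤ 1 := unitary_le hN _ (by rw [← hφ, ← map_mul, e4, map_one])
    have n2 : N (φ (star (v : A))) ≤ 1 :=
      unitary_le hN _ (by rw [← hφ, ← map_mul, star_star, e5, map_one])
    rw [e3, map_smul, map_add, hN.smul]
    have n3 := hN.add_le (φ v) (φ (star (v : A)))
    have : ‖(1 / 2 : ℂ)‖ = 1 / 2 := by norm_num
    rw [this]
    linarith
  have h2 : ∀ a : A, IsSelfAdjoint a → N (φ a) ≤ ‖a‖ := by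
    intro a ha
    by_cases h0 : a = 0
    · subst h0
      have : N (φ (0 : A)) = 0 := by
        have h := hN.smul 0 (φ (0 : A))
        rw [map_zero, smul_zero] at h
        rw [map_zero, h]; simp
      rw [this]; exact norm_nonneg _
    · have hpos : 0 < ‖a‖ := norm_pos_iff.2 h0
      have hsa : IsSelfAdjoint (((‖a‖⁻¹ : ℝ) : ℂ) • a) := by
        rw [IsSelfAdjoint, star_smul, ha.star_eq]
        congr 1
        simp
      have hn : ‖(⟨((‖a‖⁻¹ : ℝ) : ℂ) • a, hsa⟩ : selfAdjoint A)‖ ≤ 1 := by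
        show ‖((‖a‖⁻¹ : ℝ) : ℂ) • a‖ ≤ 1
        rw [norm_smul, Complex.norm_real, norm_inv, norm_norm, inv_mul_cancel₀ hpos.ne']
      have h3 := h1 _ hn
      rw [map_smul, hN.smul, Complex.norm_real, norm_inv, norm_norm] at h3
      rw [inv_mul_le_iff₀ hpos, mul_one] at h3
      exact h3
  have h3 := h2 (star a * a) (IsSelfAdjoint.star_mul_self a)
  rw [map_mul, hφ, hN.cstar, CStarRing.norm_star_mul_self] at h3
  nlinarith [hN.nonneg (φ a), norm_nonneg a]

theorem tmul_le {N : A ⊗[ℂ] B → ℝ} (hN : IsSemi N) (a : A) (b : B) :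
    N (a ⊗ₜ[ℂ] b) ≤ ‖a‖ * ‖b‖ := by
  have e : a ⊗ₜ[ℂ] b = (a ⊗ₜ[ℂ] (1 : B)) * ((1 : A) ⊗ₜ[ℂ] b) := by
    rw [Algebra.TensorProduct.tmul_mul_tmul, mul_one, one_mul]
  have h1 : N (a ⊗ₜ[ℂ] (1 : B)) ≤ ‖a‖ :=
    hom_le hN (Algebra.TensorProduct.includeLeft : A →ₐ[ℂ] A ⊗[ℂ] B)
      (fun a => by simp [TensorProduct.star_tmul]) a
  have h2 : N ((1 : A) ⊗ₜ[ℂ] b) ≤ ‖b‖ :=
    hom_le hN (Algebra.TensorProduct.includeRight : B →ₐ[ℂ] A ⊗[ℂ] B)
      (fun a => by simp [TensorProduct.star_tmul]) b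
  rw [e]
  exact (hN.mul_le _ _).trans (mul_le_mul h1 h2 (hN.nonneg _) (norm_nonneg _))

/-- the countable family of sums of elementary tensors -/
noncomputable def lsum (p : List (A × B)) : A ⊗[ℂ] B := (p.map fun q => q.1 ⊗ₜ[ℂ] q.2).sum

theorem lsum_append (p q : List (A × B)) : lsum (p ++ q) = lsum p + lsum q := by
  simp [lsum]

theorem approx {DA : Set A} {DB : Set B} (hA : Dense DA) (hB : Dense DB) (x : A ⊗[ℂ] B) :
    ∀ ε > 0, ∃ p : List (A × B), (∀ q ∈ p, q.1 ∈ DA ∧ q.2 ∈ DB) ∧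
      ∀ N : A ⊗[ℂ] B → ℝ, IsSemi N → N (x - lsum p) ≤ ε := by
  induction x using TensorProduct.induction_on with
  | zero =>
    intro ε hε
    refine ⟨[], by simp, fun N hN => ?_⟩
    have h := hN.smul 0 (0 : A ⊗[ℂ] B)
    rw [smul_zero, norm_zero, zero_mul] at h
    simp [lsum, h, hε.le]
  | tmul a b =>
    intro ε hε
    obtain ⟨a', ha', hda⟩ := Metric.dense_iff.1 hA a (min 1 (ε / (2 * (‖b‖ + 1)))) (by positivity)
    obtain ⟨b', hb', hdb⟩ := Metric.dense_iff.1 hB b (ε / (2 * (‖a‖ + 1))) (by positivity)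
    rw [Metric.mem_ball] at ha' hb'
    rw [dist_comm, dist_eq_norm] at ha' hb'
    refine ⟨[(a', b')], by simp [hda, hdb], fun N hN => ?_⟩
    have e : a ⊗ₜ[ℂ] b - lsum [(a', b')] = (a - a') ⊗ₜ[ℂ] b + a' ⊗ₜ[ℂ] (b - b') := by
      simp only [lsum, List.map_cons, List.map_nil, List.sum_cons, List.sum_nil, add_zero,
        TensorProduct.sub_tmul, TensorProduct.tmul_sub]
      abel
    rw [e]
    have h1 := tmul_le hN (a - a') b
    have h2 := tmul_le hN a' (b - b')
    have h3 : ‖a'‖ ≤ ‖a‖ + 1 := by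
      have := norm_sub_norm_le a' a
      rw [norm_sub_rev] at this
      have := lt_min_iff.1 ha'
      linarith
    have h4 : ‖a - a'‖ * ‖b‖ ≤ ε / 2 := by
      have h5 := (lt_min_iff.1 ha').2
      calc ‖a - a'‖ * ‖b‖ ≤ (ε / (2 * (‖b‖ + 1))) * (‖b‖ + 1) := by
            apply mul_le_mul h5.le (by linarith) (norm_nonneg _) (by positivity)
        _ = ε / 2 := by field_simp
    have h6 : ‖a'‖ * ‖b - b'‖ ≤ ε / 2 := by
      calc ‖a'‖ * ‖b - b'‖ ≤ (‖a‖ + 1) * (ε / (2 * (‖a‖ + 1))) := by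
            apply mul_le_mul h3 hb'.le (norm_nonneg _) (by positivity)
        _ = ε / 2 := by field_simp
    have h7 := hN.add_le ((a - a') ⊗ₜ[ℂ] b) (a' ⊗ₜ[ℂ] (b - b'))
    linarith
  | add x y hx hy =>
    intro ε hε
    obtain ⟨p, hp, hp'⟩ := hx (ε / 2) (by positivity)
    obtain ⟨q, hq, hq'⟩ := hy (ε / 2) (by positivity)
    refine ⟨p ++ q, ?_, fun N hN => ?_⟩
    · intro r hr
      rcases List.mem_append.1 hr with h | h
      · exact hp r h
      · exact hq r h
    · have e : x + y - lsum (p ++ q) = (x - lsum p) + (y - lsum q) := by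
        rw [lsum_append]; abel
      rw [e]
      have := hN.add_le (x - lsum p) (y - lsum q)
      have := hp' N hN
      have := hq' N hN
      linarith

theorem le_of_agree {DA : Set A} {DB : Set B} (hA : Dense DA) (hB : Dense DB)
    {N N' : A ⊗[ℂ] B → ℝ} (hN : IsSemi N) (hN' : IsSemi N')
    (h : ∀ p : List (A × B), (∀ q ∈ p, q.1 ∈ DA ∧ q.2 ∈ DB) → N (lsum p) = N' (lsum p))
    (x : A ⊗[ℂ] B) : N x ≤ N' x := by
  apply le_of_forall_pos_le_add
  intro ε hε
  obtain ⟨p, hp, hp'⟩ := approx hA hB x (ε / 2) (by positivity)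
  have h1 := hN.add_le (x - lsum p) (lsum p)
  have h2 := hN'.add_le (lsum p - x) x
  rw [sub_add_cancel] at h1 h2
  have h3 : N' (lsum p - x) = N' (x - lsum p) := by
    have := hN'.smul (-1) (x - lsum p)
    rw [norm_neg, norm_one, one_mul] at this
    rw [← this]
    congr 1
    simp
  have h4 := h p hp
  have h5 := hp' N hN
  have h6 := hp' N' hN'
  linarith

theorem card_le [TopologicalSpace.SeparableSpace A] [TopologicalSpace.SeparableSpace B] :
    #{N : A ⊗[ℂ] B → ℝ // IsCStarNorm N} ≤ 𝔠 := by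
  obtain ⟨DA, hDAc, hDA⟩ := TopologicalSpace.exists_countable_dense A
  obtain ⟨DB, hDBc, hDB⟩ := TopologicalSpace.exists_countable_dense B
  have : Countable DA := hDAc
  have : Countable DB := hDBc
  obtain ⟨e, he⟩ := exists_surjective_nat (List (DA × DB))
  let d : ℕ → A ⊗[ℂ] B := fun n => lsum ((e n).map fun q => ((q.1 : A), (q.2 : B)))
  refine le_trans (Cardinal.mk_le_of_injective (f := fun (N : {N : A ⊗[ℂ] B → ℝ // IsCStarNorm N})
    (n : ℕ) => N.1 (d n)) ?_) ?_
  · intro N N' hNN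
    have key : ∀ p : List (A × B), (∀ q ∈ p, q.1 ∈ DA ∧ q.2 ∈ DB) →
        N.1 (lsum p) = N'.1 (lsum p) := by
      intro p hp
      have : ∃ n, d n = lsum p := by
        have h1 : ∃ l : List (DA × DB), l.map (fun q => ((q.1 : A), (q.2 : B))) = p := by
          induction p with
          | nil => exact ⟨[], rfl⟩
          | cons q p ih =>
            obtain ⟨l, hl⟩ := ih (fun r hr => hp r (List.mem_cons_of_mem _ hr))
            have hq := hp q List.mem_cons_self
            refine ⟨(⟨q.1, hq.1⟩, ⟨q.2, hq.2⟩) :: l, ?_⟩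
            rw [List.map_cons, hl]
        obtain ⟨l, hl⟩ := h1
        obtain ⟨n, hn⟩ := he l
        refine ⟨n, ?_⟩
        simp only [d, hn, hl]
      obtain ⟨n, hn⟩ := this
      rw [← hn]
      exact congrFun hNN n
    apply Subtype.ext
    funext x
    exact le_antisymm (le_of_agree hDA hDB (semi N.2) (semi N'.2) key x)
      (le_of_agree hDA hDB (semi N'.2) (semi N.2) (fun p hp => (key p hp).symm) x)
  · rw [Cardinal.mk_arrow]
    simp only [Cardinal.lift_id, Cardinal.mk_nat, Cardinal.mk_real, Cardinal.continuum_power_aleph0]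
    exact le_rfl

end Pool.Agent.TH490.CN
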